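import Mathlib
import Pool.Agent.V11175.Sh12
import Pool.Agent.V11175.Sh6

/-!
# Symmetry of a family of monotone triangle polynomial values

We prove `W_{n,i} = W_{n,3n+3-i}` for `W_{n,i} = α(2n+1; i, 2, ..., n+1, 1, ..., n)`, for all integers `i`.

The argument list `(i, 2, ..., n+1, 1, ..., n)` is reflected (`α(k_1, ..., k_N) = α(-k_N, ..., -k_1)`), its last
argument is rotated to the front (`α(k_1, ..., k_N) = (-1)^{N-1} α(k_N + N, k_1, ..., k_{N-1})`) and the result is
translated by `n + 2`.  The rotation formula is proved in the shuffle algebra with kernel `1 - x + x y`: a letter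
with the function `(1 - y + y²) y^k`, multiplied from the left or from the right, is the sum over the position of
the letter of a product over *all* variables, and such a product can be evaluated at `(1, ..., 1)`; hence the
difference `g(k)` of both sides satisfies `g(k) - g(k+1) + g(k+2) = 0`, and it is a polynomial.
-/

set_option autoImplicit false

namespace Pool.Agent.Results.MP_16be1b_co.Symmetry

open Finset Pool.Agent.V11175.Sh Pool.Agent.V11175.Sh.A Pool.Agent.V11175.MT

/-- the sequence `(i, 2, ..., n + 1, 1, ..., n)` (index `j = 0, ..., 2 n`) -/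
def wseq (n : ℕ) (i : ℤ) (j : ℕ) : ℤ := if j = 0 then i else if j ≤ n then (j : ℤ) + 1 else (j : ℤ) - n

/-- the last `2 n` arguments -/
def tailW (n : ℕ) (j : Fin (2 * n)) : ℤ := wseq n 0 ((j : ℕ) + 1)

lemma wseq_cons (n : ℕ) (i : ℤ) :
    (fun j : Fin (2 * n + 1) => wseq n i j) = (Fin.cons i (tailW n) : Fin (2 * n + 1) → ℤ) := by
  funext j
  refine Fin.cases ?_ (fun j => ?_) j
  · simp [wseq]
  · simp [wseq, tailW]

lemma tailW_rev (n : ℕ) (j : Fin (2 * n)) : - tailW n j.rev + (n + 2) = tailW n j := by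
  obtain ⟨j, hj⟩ := j
  have e : (2 * n - (j + 1) : ℕ) + 1 = 2 * n - j := by omega
  simp only [tailW, wseq, Fin.val_rev, e]
  by_cases h1 : j + 1 ≤ n
  · rw [if_neg (by omega), if_neg (by omega), if_neg (by omega), if_pos h1]
    omega
  · rw [if_neg (by omega), if_pos (by omega), if_neg (by omega), if_neg h1]
    omega

/-- **Symmetry of a family of monotone triangle polynomial values.**  First: the monotone triangle polynomials
exist and are unique.  Second: for all `n` and all integers `i`, the values at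
`(i, 2, ..., n+1, 1, ..., n)` and at `(3n+3-i, 2, ..., n+1, 1, ..., n)` agree. -/
theorem result :
    (∀ n : ℕ, ∃! P : MvPolynomial (Fin n) ℚ, IsAlpha n P) ∧
    ∀ (n : ℕ) (i : ℤ) (P : MvPolynomial (Fin (2 * n + 1)) ℚ), IsAlpha (2 * n + 1) P →
      MvPolynomial.eval (fun j : Fin (2 * n + 1) => (wseq n i j : ℚ)) P =
        MvPolynomial.eval (fun j : Fin (2 * n + 1) => (wseq n (3 * n + 3 - i) j : ℚ)) P := by
  refine ⟨existsUnique, ?_⟩
  intro n i P hP
  have hP' := (isAlpha_iff P).1 hP
  have e : ∀ i : ℤ, (fun j : Fin (2 * n + 1) => (wseq n i j : ℚ)) =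
      fun j => (((Fin.cons i (tailW n) : Fin (2 * n + 1) → ℤ) j : ℤ) : ℚ) := by
    intro i
    funext j
    rw [← wseq_cons]
  rw [e, e, ← eval_reflect P hP']
  have h1 : (fun j : Fin (2 * n + 1) => ((-(Fin.cons i (tailW n) : Fin (2 * n + 1) → ℤ) j.rev : ℤ) : ℚ)) =
      fun j => (((Fin.snoc (fun j => - tailW n j.rev) (-i) : Fin (2 * n + 1) → ℤ) j : ℤ) : ℚ) := by
    funext j
    refine Fin.lastCases ?_ (fun j => ?_) j
    · simp
    · simp [Fin.rev_castSucc]
  rw [h1, eval_rot P hP', ← eval_shift P hP' _ (n + 2)]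
  have h2 : ((-1 : ℚ)) ^ (2 * n) = 1 := by rw [pow_mul]; simp
  rw [h2, one_mul]
  congr 2
  funext j
  refine Fin.cases ?_ (fun j => ?_) j
  · simp only [Fin.cons_zero]
    push_cast
    ring
  · simp only [Fin.cons_succ]
    rw [tailW_rev]

end Pool.Agent.Results.MP_16be1b_co.Symmetry
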